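import Mathlib

/-!
# Two-ended vertex-transitive graphs that are not n-Cayley for small n: definitions of the statement
-/

set_option autoImplicit false

namespace Pool.H36.MV.Unbounded

/-- `G` is vertex-transitive: automorphisms move any vertex to any vertex. -/
def VertexTransitive {V : Type} (G : SimpleGraph V) : Prop :=
  ∀ u v : V, ∃ φ : G ≃g G, φ u = v

/-- `r` is a ray of `G`: a one-way infinite path. -/
def IsRay {V : Type} (G : SimpleGraph V) (r : ℕ → V) : Prop :=
  Function.Injective r ∧ ∀ n, G.Adj (r n) (r (n + 1))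

/-- Two rays are equivalent (belong to the same end): for every finite vertex set `S`,
all late vertices of both rays lie in one connected component of `G - S`. -/
def SameEnd {V : Type} (G : SimpleGraph V) (r t : ℕ → V) : Prop :=
  ∀ S : Set V, S.Finite → ∃ N : ℕ, ∀ m ≥ N, ∀ n ≥ N,
    ∃ p : G.Walk (r m) (t n), ∀ x ∈ p.support, x ∉ S

/-- `G` has exactly two ends. -/
def HasExactlyTwoEnds {V : Type} (G : SimpleGraph V) : Prop :=
  ∃ r₁ r₂ : ℕ → V, IsRay G r₁ ∧ IsRay G r₂ ∧ ¬ SameEnd G r₁ r₂ ∧
    ∀ t : ℕ → V, IsRay G t → SameEnd G t r₁ ∨ SameEnd G t r₂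

/-- `G` is `n`-Cayley: some group of automorphisms acts freely on the vertices
with exactly `n` orbits. -/
def IsNCayley {V : Type} (G : SimpleGraph V) (n : ℕ) : Prop :=
  ∃ Γ : Subgroup (G ≃g G), (∀ γ ∈ Γ, ∀ v : V, γ v = v → γ = 1) ∧
    Nonempty (MulAction.orbitRel.Quotient Γ V ≃ Fin n)

end Pool.H36.MV.Unbounded
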