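import Mathlib
import Pool.Agent.H36.MV.UnboundedDefs

/-!
# Two-ended vertex-transitive graphs that are not n-Cayley for small n: the proof
-/

set_option autoImplicit false

namespace Pool.H36.MV.Unbounded

abbrev Om : Type := Fin 5 × Bool

def petAdj (a b : Om) : Prop :=
  (a.2 = false ∧ b.2 = false ∧ (b.1 = a.1 + 1 ∨ a.1 = b.1 + 1)) ∨
  (a.2 = true ∧ b.2 = true ∧ (b.1 = a.1 + 2 ∨ a.1 = b.1 + 2)) ∨
  (a.2 ≠ b.2 ∧ a.1 = b.1)

instance : DecidableRel petAdj := fun a b => by unfold petAdj; infer_instance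

theorem pet_symm : ∀ a b : Om, petAdj a b → petAdj b a := by decide

theorem pet_irrefl : ∀ a : Om, ¬ petAdj a a := by decide

theorem pet_triangle : ∀ a b c : Om, petAdj a b → petAdj b c → ¬ petAdj a c := by decide

theorem pet_common : ∀ a b : Om, a ≠ b → ¬ petAdj a b →
    ∃ w, petAdj a w ∧ petAdj b w ∧ ∀ w', petAdj a w' → petAdj b w' → w' = w := by decide

theorem pet_deg : ∀ a : Om, (Finset.univ.filter (fun b => petAdj a b)).card = 3 := by decide

/-- rotation and swap -/
def rot (a : Om) : Om := (a.1 + 1, a.2)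

def swp (a : Om) : Om := (2 * a.1, !a.2)

theorem rot_adj : ∀ a b : Om, petAdj a b ↔ petAdj (rot a) (rot b) := by decide

theorem swp_adj : ∀ a b : Om, petAdj a b ↔ petAdj (swp a) (swp b) := by decide

theorem rot_inv : ∀ a : Om, rot (rot (rot (rot (rot a)))) = a := by decide

theorem swp_inv : ∀ a : Om, swp (swp (swp (swp a))) = a := by decide

/-- A finite-field-like family of Petersen automorphisms, as permutations. -/
def IsPetAut (f : Equiv.Perm Om) : Prop := ∀ a b : Om, petAdj a b ↔ petAdj (f a) (f b)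

def rotE : Equiv.Perm Om where
  toFun := rot
  invFun := fun a => rot (rot (rot (rot a)))
  left_inv := rot_inv
  right_inv := by intro a; exact rot_inv a

def swpE : Equiv.Perm Om where
  toFun := swp
  invFun := fun a => swp (swp (swp a))
  left_inv := swp_inv
  right_inv := by intro a; exact swp_inv a

theorem isPetAut_rotE : IsPetAut rotE := rot_adj

theorem isPetAut_swpE : IsPetAut swpE := swp_adj

theorem isPetAut_one : IsPetAut 1 := fun _ _ => Iff.rfl

theorem IsPetAut.mul {f g : Equiv.Perm Om} (hf : IsPetAut f) (hg : IsPetAut g) :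
    IsPetAut (f * g) := fun a b => (hg a b).trans (hf _ _)

theorem IsPetAut.pow {f : Equiv.Perm Om} (hf : IsPetAut f) (n : ℕ) : IsPetAut (f ^ n) := by
  induction n with
  | zero => simpa using isPetAut_one
  | succ n ih => rw [pow_succ]; exact ih.mul hf

theorem rot_swp_trans : ∀ a b : Om, ∃ i : Fin 5, ∃ j : Fin 2,
    (rot^[i.val]) (swp^[j.val] a) = b := by decide

theorem pet_trans (a b : Om) : ∃ f : Equiv.Perm Om, IsPetAut f ∧ f a = b := by
  obtain ⟨i, j, h⟩ := rot_swp_trans a b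
  refine ⟨rotE ^ i.val * swpE ^ j.val, (isPetAut_rotE.pow _).mul (isPetAut_swpE.pow _), ?_⟩
  have h1 : ∀ (n : ℕ) (x : Om), (rotE ^ n) x = rot^[n] x := by
    intro n
    induction n with
    | zero => intro x; rfl
    | succ n ih => intro x; rw [pow_succ, Equiv.Perm.mul_apply, ih]; rfl
  have h2 : ∀ (n : ℕ) (x : Om), (swpE ^ n) x = swp^[n] x := by
    intro n
    induction n with
    | zero => intro x; rfl
    | succ n ih => intro x; rw [pow_succ, Equiv.Perm.mul_apply, ih]; rfl
  rw [Equiv.Perm.mul_apply, h1, h2, h]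

/-- every involutive adjacency-preserving self-map of the Petersen graph has a fixed vertex -/
theorem pet_involution (f : Om → Om) (hf : ∀ a, f (f a) = a)
    (hadj : ∀ a b, petAdj a b → petAdj (f a) (f b)) : ∃ a, f a = a := by
  by_contra hno
  push Not at hno
  have h1 : ∀ v, petAdj v (f v) := by
    intro v
    by_contra hv
    obtain ⟨w, hw1, hw2, hw3⟩ := pet_common v (f v) (hno v).symm hv
    have h2 : petAdj v (f w) := by
      have := hadj _ _ hw2
      rwa [hf] at this
    have h3 : petAdj (f v) (f w) := hadj _ _ hw1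
    exact hno w (hw3 _ h2 h3)
  -- take a neighbour `a ≠ f v`
  have h4 : ∀ v c : Om, ∃ a, petAdj v a ∧ a ≠ c := by decide
  let v : Om := (0, false)
  obtain ⟨a, ha1, ha2⟩ := h4 v (f v)
  have h5 : petAdj (f v) (f a) := hadj _ _ ha1
  have h6 : v ≠ f a := by
    intro h
    apply ha2
    rw [h, hf]
  have h7 : ¬ petAdj v (f a) := pet_triangle _ _ _ ha1 (h1 a)
  obtain ⟨w, hw1, hw2, hw3⟩ := pet_common v (f a) h6 h7
  have e1 : a = w := hw3 a ha1 (pet_symm _ _ (h1 a))
  have e2 : f v = w := hw3 (f v) (h1 v) (pet_symm _ _ h5)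
  exact ha2 (e1.trans e2.symm)

/-- vertices: a level and a window of `s + 1` letters -/
abbrev Vx (s : ℕ) : Type := ℤ × (Fin (s + 1) → Om)

def Up {s : ℕ} (u v : Vx s) : Prop :=
  v.1 = u.1 + 1 ∧ ∀ m : Fin s, u.2 m.succ = v.2 m.castSucc

def Lv {s : ℕ} (u v : Vx s) : Prop :=
  u.1 = v.1 ∧ (∀ m : Fin s, u.2 m.castSucc = v.2 m.castSucc) ∧
    petAdj (u.2 (Fin.last s)) (v.2 (Fin.last s))

def strip (s : ℕ) : SimpleGraph (Vx s) where
  Adj u v := Up u v ∨ Up v u ∨ Lv u v
  symm := ⟨by
    intro u v h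
    rcases h with h | h | ⟨h1, h2, h3⟩
    · exact Or.inr (Or.inl h)
    · exact Or.inl h
    · exact Or.inr (Or.inr ⟨h1.symm, fun m => (h2 m).symm, pet_symm _ _ h3⟩)⟩
  loopless := ⟨by
    intro u h
    rcases h with h | h | ⟨h1, h2, h3⟩
    · have := h.1; omega
    · have := h.1; omega
    · exact pet_irrefl _ h3⟩

theorem Lv.symm {s : ℕ} {u v : Vx s} (h : Lv u v) : Lv v u :=
  ⟨h.1.symm, fun m => (h.2.1 m).symm, pet_symm _ _ h.2.2⟩

/-- the vertex at level `i` cut out of the bi-infinite word `ξ` -/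
def pt (s : ℕ) (ξ : ℤ → Om) (i : ℤ) : Vx s := (i, fun m => ξ (i + m.val))

theorem pt_up (s : ℕ) (ξ : ℤ → Om) (i : ℤ) : Up (pt s ξ i) (pt s ξ (i + 1)) := by
  refine ⟨rfl, fun m => ?_⟩
  simp only [pt, Fin.val_succ, Fin.val_castSucc]
  congr 1
  push_cast
  ring

theorem exists_pt {s : ℕ} (u : Vx s) : ∃ ξ : ℤ → Om, pt s ξ u.1 = u := by
  refine ⟨fun j => if h : (j - u.1).toNat < s + 1 then u.2 ⟨(j - u.1).toNat, h⟩ else (0, false), ?_⟩
  refine Prod.ext rfl (funext fun m => ?_)
  have h : (u.1 + (m.val : ℤ) - u.1).toNat = m.val := by simp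
  simp only [pt]
  rw [dif_pos (by rw [h]; exact m.isLt)]
  exact congrArg u.2 (Fin.ext h)

/-- a bi-infinite word whose window at `u.1` is `u` and which is constant far away -/
theorem exists_pt' {s : ℕ} (u : Vx s) : ∃ ξ : ℤ → Om, pt s ξ u.1 = u ∧
    (∀ j, j < u.1 → ξ j = (0, false)) ∧ (∀ j, u.1 + s < j → ξ j = (0, false)) := by
  refine ⟨fun j => if h : 0 ≤ j - u.1 ∧ (j - u.1).toNat < s + 1
    then u.2 ⟨(j - u.1).toNat, h.2⟩ else (0, false), ?_, ?_, ?_⟩
  · refine Prod.ext rfl (funext fun m => ?_)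
    have h : (u.1 + (m.val : ℤ) - u.1).toNat = m.val := by simp
    have h' : (0:ℤ) ≤ (u.1 + (m.val : ℤ) - u.1) := by simp
    simp only [pt]
    rw [dif_pos ⟨h', by rw [h]; exact m.isLt⟩]
    exact congrArg u.2 (Fin.ext h)
  · intro j hj
    exact dif_neg (by omega)
  · intro j hj
    exact dif_neg (by omega)

theorem adj_level {s : ℕ} {u v : Vx s} (h : (strip s).Adj u v) :
    v.1 = u.1 + 1 ∨ v.1 = u.1 - 1 ∨ v.1 = u.1 := by
  rcases h with h | h | h
  · left; exact h.1
  · right; left; have := h.1; omega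
  · right; right; exact h.1.symm

def upN {s : ℕ} (u : Vx s) (z : Om) : Vx s :=
  (u.1 + 1, Fin.snoc (α := fun _ => Om) (fun m : Fin s => u.2 m.succ) z)

def dnN {s : ℕ} (u : Vx s) (z : Om) : Vx s :=
  (u.1 - 1, Fin.cons (α := fun _ => Om) z (fun m : Fin s => u.2 m.castSucc))

def lvN {s : ℕ} (u : Vx s) (z : Om) : Vx s :=
  (u.1, Fin.snoc (α := fun _ => Om) (fun m : Fin s => u.2 m.castSucc) z)

theorem up_iff {s : ℕ} (u v : Vx s) : Up u v ↔ ∃ z, upN u z = v := by
  constructor
  · rintro ⟨h1, h2⟩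
    refine ⟨v.2 (Fin.last s), Prod.ext h1.symm (funext fun m => ?_)⟩
    refine Fin.lastCases ?_ (fun i => ?_) m
    · simp [upN]
    · simp [upN, h2]
  · rintro ⟨z, rfl⟩
    exact ⟨rfl, fun m => by simp [upN]⟩

theorem dn_iff {s : ℕ} (u v : Vx s) : Up v u ↔ ∃ z, dnN u z = v := by
  constructor
  · rintro ⟨h1, h2⟩
    refine ⟨v.2 0, Prod.ext (by simp [dnN, h1]) (funext fun m => ?_)⟩
    refine Fin.cases ?_ (fun i => ?_) m
    · simp [dnN]
    · simp [dnN, h2]
  · rintro ⟨z, rfl⟩
    exact ⟨by simp [dnN], fun m => by simp [dnN]⟩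

theorem lv_iff {s : ℕ} (u v : Vx s) :
    Lv u v ↔ ∃ z, petAdj (u.2 (Fin.last s)) z ∧ lvN u z = v := by
  constructor
  · rintro ⟨h1, h2, h3⟩
    refine ⟨v.2 (Fin.last s), h3, Prod.ext h1 (funext fun m => ?_)⟩
    refine Fin.lastCases ?_ (fun i => ?_) m
    · simp [lvN]
    · simp [lvN, h2]
  · rintro ⟨z, hz, rfl⟩
    exact ⟨rfl, fun m => by simp [lvN], by simpa [lvN] using hz⟩

theorem upN_inj {s : ℕ} (u : Vx s) : Function.Injective (upN u) := by
  intro a b h
  have := congrArg (fun v : Vx s => v.2 (Fin.last s)) h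
  simpa [upN] using this

theorem dnN_inj {s : ℕ} (u : Vx s) : Function.Injective (dnN u) := by
  intro a b h
  have := congrArg (fun v : Vx s => v.2 0) h
  simpa [dnN] using this

theorem lvN_inj {s : ℕ} (u : Vx s) : Function.Injective (lvN u) := by
  intro a b h
  have := congrArg (fun v : Vx s => v.2 (Fin.last s)) h
  simpa [lvN] using this

theorem encard_up {s : ℕ} (u : Vx s) : {v | Up u v}.encard = 10 := by
  have : {v | Up u v} = (upN u) '' Set.univ := by
    ext v; simp [up_iff]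
  rw [this, (upN_inj u).encard_image, Set.encard_univ, ENat.card_eq_coe_fintype_card]
  rfl

theorem encard_dn {s : ℕ} (u : Vx s) : {v | Up v u}.encard = 10 := by
  have : {v | Up v u} = (dnN u) '' Set.univ := by
    ext v; simp [dn_iff]
  rw [this, (dnN_inj u).encard_image, Set.encard_univ, ENat.card_eq_coe_fintype_card]
  rfl

theorem encard_lv {s : ℕ} (u : Vx s) : {v | Lv u v}.encard = 3 := by
  have : {v | Lv u v} = (lvN u) '' {z | petAdj (u.2 (Fin.last s)) z} := by
    ext v; simp [lv_iff]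
  rw [this, (lvN_inj u).encard_image]
  have h := pet_deg (u.2 (Fin.last s))
  have h2 : {z | petAdj (u.2 (Fin.last s)) z} =
      ((Finset.univ.filter (fun b => petAdj (u.2 (Fin.last s)) b) : Finset Om) : Set Om) := by
    ext z; simp
  rw [h2, Set.encard_coe_eq_coe_finsetCard, h]
  rfl

theorem strip_regular (s : ℕ) (u : Vx s) : ((strip s).neighborSet u).encard = (23 : ℕ) := by
  have h : (strip s).neighborSet u = ({v | Up u v} ∪ {v | Up v u}) ∪ {v | Lv u v} := by
    ext v
    simp [SimpleGraph.mem_neighborSet, strip, or_assoc]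
  rw [h, Set.encard_union_eq, Set.encard_union_eq, encard_up, encard_dn, encard_lv]
  · norm_num
  · rw [Set.disjoint_left]
    rintro v ⟨h1, _⟩ ⟨h2, _⟩
    omega
  · rw [Set.disjoint_left]
    rintro v (⟨h1, _⟩ | ⟨h1, _⟩) ⟨h2, _⟩ <;> omega

theorem common_lv {s : ℕ} (hs : 1 ≤ s) {u v : Vx s} (h : Lv u v) :
    (strip s).commonNeighbors u v = {w | Up w u} := by
  obtain ⟨s, rfl⟩ : ∃ t, s = t + 1 := ⟨s - 1, by omega⟩
  obtain ⟨h1, h2, h3⟩ := h
  ext w
  rw [SimpleGraph.mem_commonNeighbors]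
  constructor
  · rintro ⟨hu | hu | hu, hv | hv | hv⟩
    · -- Up u w, Up v w
      exfalso
      have e1 := hu.2 (Fin.last s)
      have e2 := hv.2 (Fin.last s)
      rw [Fin.succ_last] at e1 e2
      rw [e1, e2] at h3
      exact pet_irrefl _ h3
    · exfalso; have := hu.1; have := hv.1; omega
    · exfalso; have := hu.1; have := hv.1; omega
    · exfalso; have := hu.1; have := hv.1; omega
    · exact hu
    · exact hu
    · exfalso; have := hu.1; have := hv.1; omega
    · exfalso; have := hu.1; have := hv.1; omega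
    · exfalso
      exact pet_triangle _ _ _ (pet_symm _ _ hu.2.2) h3 (pet_symm _ _ hv.2.2)
  · intro hw
    refine ⟨Or.inr (Or.inl hw), Or.inr (Or.inl ⟨?_, fun m => ?_⟩)⟩
    · rw [← h1]; exact hw.1
    · rw [← h2]; exact hw.2 m

theorem common_up {s : ℕ} (hs : 1 ≤ s) {u v : Vx s} (h : Up u v) :
    (strip s).commonNeighbors u v = {w | Lv v w} := by
  obtain ⟨s, rfl⟩ : ∃ t, s = t + 1 := ⟨s - 1, by omega⟩
  obtain ⟨h1, h2⟩ := h
  ext w
  rw [SimpleGraph.mem_commonNeighbors]
  constructor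
  · rintro ⟨hu | hu | hu, hv | hv | hv⟩
    · exfalso; have := hu.1; have := hv.1; omega
    · exfalso; have := hu.1; have := hv.1; omega
    · exact hv
    · exfalso; have := hu.1; have := hv.1; omega
    · exfalso; have := hu.1; have := hv.1; omega
    · exfalso; have := hu.1; have := hv.1; omega
    · exfalso; have := hu.1; have := hv.1; omega
    · -- Lv u w, Up w v
      exfalso
      have e1 := hv.2 (Fin.last s)
      have e2 := h2 (Fin.last s)
      rw [Fin.succ_last] at e1 e2
      have e3 := hu.2.2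
      rw [e1, e2] at e3
      exact pet_irrefl _ e3
    · exfalso; have := hu.1; have := hv.1; omega
  · intro hw
    refine ⟨Or.inl ⟨?_, fun m => ?_⟩, Or.inr (Or.inr hw)⟩
    · rw [← hw.1]; exact h1
    · rw [← hw.2.1]; exact h2 m

theorem common_map {s : ℕ} (φ : strip s ≃g strip s) (u v : Vx s) :
    ((strip s).commonNeighbors (φ u) (φ v)).encard =
      ((strip s).commonNeighbors u v).encard := by
  have : (strip s).commonNeighbors (φ u) (φ v) = φ '' (strip s).commonNeighbors u v := by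
    ext w
    constructor
    · intro hw
      refine ⟨φ.symm w, ?_, φ.apply_symm_apply w⟩
      rw [SimpleGraph.mem_commonNeighbors] at hw ⊢
      rw [← φ.map_adj_iff, ← φ.map_adj_iff (v := v), φ.apply_symm_apply]
      exact hw
    · rintro ⟨w, hw, rfl⟩
      rw [SimpleGraph.mem_commonNeighbors] at hw ⊢
      rw [φ.map_adj_iff, φ.map_adj_iff]
      exact hw
  rw [this, φ.injective.encard_image]

theorem map_lv {s : ℕ} (hs : 1 ≤ s) (φ : strip s ≃g strip s) {u v : Vx s} (h : Lv u v) :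
    Lv (φ u) (φ v) := by
  have h1 : (strip s).Adj (φ u) (φ v) := φ.map_adj_iff.2 (Or.inr (Or.inr h))
  have h2 := common_map φ u v
  rw [common_lv hs h, encard_dn] at h2
  rcases h1 with h1 | h1 | h1
  · rw [common_up hs h1, encard_lv] at h2
    norm_num at h2
  · rw [SimpleGraph.commonNeighbors_symm, common_up hs h1, encard_lv] at h2
    norm_num at h2
  · exact h1

theorem map_lv_iff {s : ℕ} (hs : 1 ≤ s) (φ : strip s ≃g strip s) {u v : Vx s} :
    Lv (φ u) (φ v) ↔ Lv u v := by
  constructor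
  · intro h
    have := map_lv hs φ.symm h
    simpa using this
  · exact map_lv hs φ

theorem map_up {s : ℕ} (hs : 1 ≤ s) (φ : strip s ≃g strip s) {u v : Vx s} (h : Up u v) :
    Up (φ u) (φ v) := by
  have h1 : (strip s).Adj (φ u) (φ v) := φ.map_adj_iff.2 (Or.inl h)
  rcases h1 with h1 | h1 | h1
  · exact h1
  · exfalso
    obtain ⟨z, hz⟩ : ∃ z, petAdj (v.2 (Fin.last s)) z := by
      have : ∀ a : Om, ∃ z, petAdj a z := by decide
      exact this _
    have hw : Lv v (lvN v z) := (lv_iff _ _).2 ⟨z, hz, rfl⟩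
    have hw2 : lvN v z ∈ (strip s).commonNeighbors u v := by
      rw [common_up hs h]; exact hw
    have hw3 : φ (lvN v z) ∈ (strip s).commonNeighbors (φ v) (φ u) := by
      rw [SimpleGraph.mem_commonNeighbors] at hw2 ⊢
      rw [φ.map_adj_iff, φ.map_adj_iff]
      exact hw2.symm
    rw [common_up hs h1] at hw3
    have hw4 := map_lv hs φ hw
    have e1 := hw3.1
    have e2 := hw4.1
    have e3 := h1.1
    omega
  · exfalso
    have h2 := (map_lv_iff hs φ).1 h1
    have e1 := h.1
    have e2 := h2.1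
    omega

theorem walk_up (s : ℕ) (ξ : ℤ → Om) (i : ℤ) (k : ℕ) :
    ∃ p : (strip s).Walk (pt s ξ i) (pt s ξ (i + k)), ∀ x ∈ p.support, i ≤ x.1 ∧ x.1 ≤ i + k := by
  induction k with
  | zero =>
    have h : i + ((0 : ℕ) : ℤ) = i := by simp
    rw [h]
    exact ⟨SimpleGraph.Walk.nil, by intro x hx; simp at hx; subst hx; simp [pt]⟩
  | succ k ih =>
    obtain ⟨p, hp⟩ := ih
    have h : i + ((k + 1 : ℕ) : ℤ) = i + k + 1 := by push_cast; ring
    rw [h]
    have hadj : (strip s).Adj (pt s ξ (i + k)) (pt s ξ (i + k + 1)) := Or.inl (pt_up s ξ _)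
    refine ⟨p.concat hadj, ?_⟩
    intro x hx
    rw [SimpleGraph.Walk.support_concat] at hx
    simp only [List.mem_append, List.mem_singleton] at hx
    rcases hx with hx | hx
    · have := hp x hx
      omega
    · subst hx
      simp only [pt]
      omega

/-- two vertices above (or at) level `N` are joined above level `N` -/
theorem joined_above {s : ℕ} (u v : Vx s) (N : ℤ) (hu : N ≤ u.1) (hv : N ≤ v.1) :
    ∃ p : (strip s).Walk u v, ∀ x ∈ p.support, N ≤ x.1 := by
  obtain ⟨ξ, h1, _, h2⟩ := exists_pt' u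
  obtain ⟨η, h3, _, h4⟩ := exists_pt' v
  obtain ⟨p, hp⟩ := walk_up s ξ u.1 (max u.1 v.1 + s + 1 - u.1).toNat
  obtain ⟨q, hq⟩ := walk_up s η v.1 (max u.1 v.1 + s + 1 - v.1).toNat
  have e1 : u.1 + (((max u.1 v.1 + s + 1 - u.1).toNat : ℕ) : ℤ) = max u.1 v.1 + s + 1 := by
    omega
  have e2 : v.1 + (((max u.1 v.1 + s + 1 - v.1).toNat : ℕ) : ℤ) = max u.1 v.1 + s + 1 := by
    omega
  have e3 : pt s ξ (u.1 + (((max u.1 v.1 + s + 1 - u.1).toNat : ℕ) : ℤ)) =
      pt s η (v.1 + (((max u.1 v.1 + s + 1 - v.1).toNat : ℕ) : ℤ)) := by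
    rw [e1, e2]
    refine Prod.ext rfl (funext fun m => ?_)
    simp only [pt]
    rw [h2 _ (by omega), h4 _ (by omega)]
  refine ⟨(p.append (q.reverse.copy e3.symm rfl)).copy h1 h3, ?_⟩
  intro x hx
  rw [SimpleGraph.Walk.support_copy, SimpleGraph.Walk.mem_support_append_iff,
    SimpleGraph.Walk.support_copy, SimpleGraph.Walk.support_reverse, List.mem_reverse] at hx
  rcases hx with hx | hx
  · have := hp x hx; omega
  · have := hq x hx; omega

theorem walk_down (s : ℕ) (ξ : ℤ → Om) (i : ℤ) (k : ℕ) :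
    ∃ p : (strip s).Walk (pt s ξ i) (pt s ξ (i - k)), ∀ x ∈ p.support, i - k ≤ x.1 ∧ x.1 ≤ i := by
  obtain ⟨p, hp⟩ := walk_up s ξ (i - k) k
  have h : pt s ξ (i - k + (k : ℤ)) = pt s ξ i := by congr 1; ring
  refine ⟨(p.copy rfl h).reverse, ?_⟩
  intro x hx
  rw [SimpleGraph.Walk.support_reverse, List.mem_reverse, SimpleGraph.Walk.support_copy] at hx
  have := hp x hx
  omega

theorem joined_below {s : ℕ} (u v : Vx s) (N : ℤ) (hu : u.1 ≤ N) (hv : v.1 ≤ N) :
    ∃ p : (strip s).Walk u v, ∀ x ∈ p.support, x.1 ≤ N := by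
  obtain ⟨ξ, h1, h2, _⟩ := exists_pt' u
  obtain ⟨η, h3, h4, _⟩ := exists_pt' v
  obtain ⟨p, hp⟩ := walk_down s ξ u.1 (u.1 - (min u.1 v.1 - s - 1)).toNat
  obtain ⟨q, hq⟩ := walk_down s η v.1 (v.1 - (min u.1 v.1 - s - 1)).toNat
  have e1 : u.1 - (((u.1 - (min u.1 v.1 - s - 1)).toNat : ℕ) : ℤ) = min u.1 v.1 - s - 1 := by
    omega
  have e2 : v.1 - (((v.1 - (min u.1 v.1 - s - 1)).toNat : ℕ) : ℤ) = min u.1 v.1 - s - 1 := by
    omega
  have e3 : pt s ξ (u.1 - (((u.1 - (min u.1 v.1 - s - 1)).toNat : ℕ) : ℤ)) =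
      pt s η (v.1 - (((v.1 - (min u.1 v.1 - s - 1)).toNat : ℕ) : ℤ)) := by
    rw [e1, e2]
    refine Prod.ext rfl (funext fun m => ?_)
    simp only [pt]
    rw [h2 _ (by omega), h4 _ (by omega)]
  refine ⟨(p.append (q.reverse.copy e3.symm rfl)).copy h1 h3, ?_⟩
  intro x hx
  rw [SimpleGraph.Walk.support_copy, SimpleGraph.Walk.mem_support_append_iff,
    SimpleGraph.Walk.support_copy, SimpleGraph.Walk.support_reverse, List.mem_reverse] at hx
  rcases hx with hx | hx
  · have := hp x hx; omega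
  · have := hq x hx; omega

theorem strip_connected (s : ℕ) : (strip s).Connected := by
  have : Nonempty (Vx s) := ⟨(0, fun _ => (0, false))⟩
  refine ⟨fun u v => ?_⟩
  obtain ⟨p, _⟩ := joined_above u v (min u.1 v.1) (by omega) (by omega)
  exact ⟨p⟩

/-- coordinatewise action followed by a translation -/
def act (s : ℕ) (t : ℤ) (g : ℤ → Equiv.Perm Om) (hg : ∀ j, IsPetAut (g j)) :
    strip s ≃g strip s where
  toFun u := (u.1 + t, fun m => g (u.1 + m.val) (u.2 m))
  invFun u := (u.1 - t, fun m => (g (u.1 - t + m.val)).symm (u.2 m))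
  left_inv u := by
    refine Prod.ext (by simp) (funext fun m => ?_)
    simp
  right_inv u := by
    refine Prod.ext (by simp) (funext fun m => ?_)
    simp
  map_rel_iff' := by
    intro u v
    have hup : ∀ u v : Vx s, Up ((u.1 + t, fun m => g (u.1 + m.val) (u.2 m)) : Vx s)
        ((v.1 + t, fun m => g (v.1 + m.val) (v.2 m)) : Vx s) ↔ Up u v := by
      intro u v
      constructor
      · rintro ⟨h1, h2⟩
        have h1' : v.1 = u.1 + 1 := by simp only at h1; omega
        refine ⟨h1', fun m => ?_⟩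
        have h3 := h2 m
        simp only [Fin.val_succ, Fin.val_castSucc] at h3
        have h4 : u.1 + ((m.val + 1 : ℕ) : ℤ) = v.1 + (m.val : ℤ) := by
          rw [h1']; push_cast; ring
        rw [h4] at h3
        exact (g _).injective h3
      · rintro ⟨h1, h2⟩
        refine ⟨by simp only; omega, fun m => ?_⟩
        simp only [Fin.val_succ, Fin.val_castSucc]
        have h4 : u.1 + ((m.val + 1 : ℕ) : ℤ) = v.1 + (m.val : ℤ) := by
          rw [h1]; push_cast; ring
        rw [h4, h2 m]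
    have hlv : Lv ((u.1 + t, fun m => g (u.1 + m.val) (u.2 m)) : Vx s)
        ((v.1 + t, fun m => g (v.1 + m.val) (v.2 m)) : Vx s) ↔ Lv u v := by
      constructor
      · rintro ⟨h1, h2, h3⟩
        have h1' : u.1 = v.1 := by simp only at h1; omega
        refine ⟨h1', fun m => ?_, ?_⟩
        · have h4 := h2 m
          simp only at h4
          rw [h1'] at h4
          exact (g _).injective h4
        · simp only at h3
          rw [h1'] at h3
          exact (hg _ _ _).2 h3
      · rintro ⟨h1, h2, h3⟩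
        refine ⟨by simp only; omega, fun m => ?_, ?_⟩
        · simp only
          rw [h1, h2 m]
        · simp only
          rw [h1]
          exact (hg _ _ _).1 h3
    exact or_congr (hup u v) (or_congr (hup v u) hlv)

theorem strip_transitive (s : ℕ) : VertexTransitive (strip s) := by
  intro u v
  choose f hf1 hf2 using pet_trans
  obtain ⟨ξ, hξ⟩ := exists_pt u
  obtain ⟨η, hη⟩ := exists_pt v
  refine ⟨act s (v.1 - u.1) (fun j => f (ξ j) (η (j + (v.1 - u.1)))) (fun j => hf1 _ _), ?_⟩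
  refine Prod.ext ?_ (funext fun m => ?_)
  · change u.1 + (v.1 - u.1) = v.1
    ring
  · change f (ξ (u.1 + m.val)) (η (u.1 + m.val + (v.1 - u.1))) (u.2 m) = v.2 m
    have e1 : u.2 m = ξ (u.1 + m.val) := by rw [← congrArg Prod.snd hξ]; rfl
    have e2 : v.2 m = η (v.1 + m.val) := by rw [← congrArg Prod.snd hη]; rfl
    rw [e1, hf2, e2]
    congr 1
    ring

theorem level_finite (s : ℕ) (N : ℤ) : {v : Vx s | -N ≤ v.1 ∧ v.1 ≤ N}.Finite := by
  have : {v : Vx s | -N ≤ v.1 ∧ v.1 ≤ N} = (Set.Icc (-N) N) ×ˢ (Set.univ : Set (Fin (s+1) → Om)) := by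
    ext v; simp
  rw [this]
  exact (Set.finite_Icc _ _).prod Set.finite_univ

theorem finite_bound {s : ℕ} (S : Set (Vx s)) (hS : S.Finite) :
    ∃ N : ℤ, 0 ≤ N ∧ ∀ v ∈ S, -N ≤ v.1 ∧ v.1 ≤ N := by
  induction S, hS using Set.Finite.induction_on with
  | empty => exact ⟨0, le_refl _, by simp⟩
  | insert _ _ ih =>
    rename_i a S _ _
    obtain ⟨N, hN0, hN⟩ := ih
    refine ⟨N + |a.1|, by positivity, ?_⟩
    intro v hv
    rcases hv with rfl | hv
    · constructor
      · have := neg_abs_le v.1; omega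
      · have := le_abs_self v.1; omega
    · have := hN v hv
      have := abs_nonneg a.1
      omega

theorem pos_of_walk {s : ℕ} {u v : Vx s} (p : (strip s).Walk u v)
    (hp : ∀ x ∈ p.support, x ∉ {v : Vx s | v.1 = 0}) (hu : 0 < u.1) : 0 < v.1 := by
  induction p with
  | nil => exact hu
  | cons h p ih =>
    rename_i a b c
    apply ih
    · intro x hx
      exact hp x (by simp [hx])
    · have h1 := adj_level h
      have h2 := hp b (by simp)
      simp only [Set.mem_ofPred_eq] at h2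
      omega

def rayUp (s : ℕ) (n : ℕ) : Vx s := ((n : ℤ), fun _ => (0, false))

def rayDn (s : ℕ) (n : ℕ) : Vx s := (-(n : ℤ), fun _ => (0, false))

theorem isRay_up (s : ℕ) : IsRay (strip s) (rayUp s) := by
  constructor
  · intro a b h
    have := congrArg Prod.fst h
    simp only [rayUp] at this
    exact_mod_cast this
  · intro n
    left
    exact ⟨by simp [rayUp], fun m => rfl⟩

theorem isRay_dn (s : ℕ) : IsRay (strip s) (rayDn s) := by
  constructor
  · intro a b h
    have := congrArg Prod.fst h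
    simp only [rayDn] at this
    omega
  · intro n
    right; left
    refine ⟨?_, fun m => rfl⟩
    simp [rayDn]

theorem eventually_far {s : ℕ} (r : ℕ → Vx s) (hr : IsRay (strip s) r) (N : ℤ) :
    ∃ n₀, ∀ n ≥ n₀, ¬ (-N ≤ (r n).1 ∧ (r n).1 ≤ N) := by
  have h1 : (r ⁻¹' {v : Vx s | -N ≤ v.1 ∧ v.1 ≤ N}).Finite :=
    (level_finite s N).preimage (hr.1.injOn)
  obtain ⟨M, hM⟩ := h1.bddAbove
  refine ⟨M + 1, fun n hn h => ?_⟩
  have := hM (show n ∈ r ⁻¹' {v : Vx s | -N ≤ v.1 ∧ v.1 ≤ N} from h)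
  omega

theorem strip_ends (s : ℕ) : HasExactlyTwoEnds (strip s) := by
  refine ⟨rayUp s, rayDn s, isRay_up s, isRay_dn s, ?_, ?_⟩
  · intro h
    have hfin : ({v : Vx s | v.1 = 0}).Finite := by
      refine (level_finite s 0).subset ?_
      intro v hv
      simp only [Set.mem_ofPred_eq] at hv ⊢
      omega
    obtain ⟨N, hN⟩ := h _ hfin
    obtain ⟨p, hp⟩ := hN (N + 1) (by omega) (N + 1) (by omega)
    have h1 := pos_of_walk p hp (by simp only [rayUp]; positivity)
    simp only [rayDn] at h1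
    push_cast at h1
    omega
  · intro t ht
    obtain ⟨n₀, hn₀⟩ := eventually_far t ht 0
    have hne : ∀ n ≥ n₀, (t n).1 ≠ 0 := by
      intro n hn h
      exact hn₀ n hn (by omega)
    have hsign : (∀ n ≥ n₀, 0 < (t n).1) ∨ (∀ n ≥ n₀, (t n).1 < 0) := by
      rcases lt_or_gt_of_ne (hne n₀ le_rfl) with h0 | h0
      · right
        intro n hn
        induction n, hn using Nat.le_induction with
        | base => exact h0
        | succ n hn ih =>
          have h1 := adj_level (ht.2 n)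
          have h2 := hne (n + 1) (by omega)
          omega
      · left
        intro n hn
        induction n, hn using Nat.le_induction with
        | base => exact h0
        | succ n hn ih =>
          have h1 := adj_level (ht.2 n)
          have h2 := hne (n + 1) (by omega)
          omega
    rcases hsign with hsign | hsign
    · left
      intro S hS
      obtain ⟨N, hN0, hN⟩ := finite_bound S hS
      obtain ⟨n₁, hn₁⟩ := eventually_far t ht N
      refine ⟨max (max n₀ n₁) (N.toNat + 1), fun m hm n hn => ?_⟩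
      have h1 := hn₁ m (by omega)
      have h2 := hsign m (by omega)
      obtain ⟨p, hp⟩ := joined_above (t m) (rayUp s n) (N + 1) (by omega)
        (by simp only [rayUp]; omega)
      refine ⟨p, fun x hx hxS => ?_⟩
      have := hp x hx
      have := hN x hxS
      omega
    · right
      intro S hS
      obtain ⟨N, hN0, hN⟩ := finite_bound S hS
      obtain ⟨n₁, hn₁⟩ := eventually_far t ht N
      refine ⟨max (max n₀ n₁) (N.toNat + 1), fun m hm n hn => ?_⟩
      have h1 := hn₁ m (by omega)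
      have h2 := hsign m (by omega)
      obtain ⟨p, hp⟩ := joined_below (t m) (rayDn s n) (-(N + 1)) (by omega)
        (by simp only [rayDn]; omega)
      refine ⟨p, fun x hx hxS => ?_⟩
      have := hp x hx
      have := hN x hxS
      omega

theorem shift_const {s : ℕ} (hs : 1 ≤ s) (φ : strip s ≃g strip s) (ξ : ℤ → Om) (i : ℤ) (k : ℕ) :
    (φ (pt s ξ (i + k))).1 = (φ (pt s ξ i)).1 + k := by
  induction k with
  | zero => simp
  | succ k ih =>
    have h := (map_up hs φ (pt_up s ξ (i + k))).1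
    have e : i + ((k + 1 : ℕ) : ℤ) = i + k + 1 := by push_cast; ring
    rw [e, h, ih]
    push_cast
    ring

theorem level_shift {s : ℕ} (hs : 1 ≤ s) (φ : strip s ≃g strip s) (u v : Vx s) :
    (φ u).1 - u.1 = (φ v).1 - v.1 := by
  obtain ⟨ξ, h1, _, h2⟩ := exists_pt' u
  obtain ⟨η, h3, _, h4⟩ := exists_pt' v
  have a1 := shift_const hs φ ξ u.1 (max u.1 v.1 + s + 1 - u.1).toNat
  have a2 := shift_const hs φ η v.1 (max u.1 v.1 + s + 1 - v.1).toNat
  have e1 : u.1 + (((max u.1 v.1 + s + 1 - u.1).toNat : ℕ) : ℤ) = max u.1 v.1 + s + 1 := by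
    omega
  have e2 : v.1 + (((max u.1 v.1 + s + 1 - v.1).toNat : ℕ) : ℤ) = max u.1 v.1 + s + 1 := by
    omega
  have e3 : pt s ξ (max u.1 v.1 + s + 1) = pt s η (max u.1 v.1 + s + 1) := by
    refine Prod.ext rfl (funext fun m => ?_)
    simp only [pt]
    rw [h2 _ (by omega), h4 _ (by omega)]
  rw [e1, h1] at a1
  rw [e2, h3] at a2
  rw [e3] at a1
  omega

def LevelPres {s : ℕ} (φ : strip s ≃g strip s) : Prop := ∀ v, (φ v).1 = v.1

theorem coord_shift {s : ℕ} (hs : 1 ≤ s) (φ : strip s ≃g strip s) (ξ : ℤ → Om) (m : ℕ)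
    (hm : m < s + 1) (i : ℤ) :
    (φ (pt s ξ i)).2 ⟨m, hm⟩ = (φ (pt s ξ (i + m))).2 0 := by
  induction m generalizing i with
  | zero => simp
  | succ m ih =>
    have h := (map_up hs φ (pt_up s ξ i)).2 ⟨m, by omega⟩
    have e : i + ((m + 1 : ℕ) : ℤ) = i + 1 + m := by push_cast; ring
    rw [e, ← ih (by omega)]
    exact h

theorem coord_dep {s : ℕ} (hs : 1 ≤ s) (φ : strip s ≃g strip s) (ξ η : ℤ → Om) (j : ℤ)
    (h : ξ j = η j) : (φ (pt s ξ j)).2 0 = (φ (pt s η j)).2 0 := by
  let ζ : ℤ → Om := fun t => if t ≤ j then ξ t else η t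
  have e1 : pt s ζ j = pt s η j := by
    refine Prod.ext rfl (funext fun m => ?_)
    simp only [pt, ζ]
    split_ifs with hh
    · have : j + (m.val : ℤ) = j := by omega
      rw [this, h]
    · rfl
  have e2 : pt s ζ (j - s) = pt s ξ (j - s) := by
    refine Prod.ext rfl (funext fun m => ?_)
    simp only [pt, ζ]
    rw [if_pos (by have := m.isLt; omega)]
  have a1 := coord_shift hs φ ζ s (by omega) (j - s)
  have a2 := coord_shift hs φ ξ s (by omega) (j - s)
  rw [e2, a2] at a1
  have e3 : j - (s : ℤ) + s = j := by ring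
  rw [e3] at a1
  rw [a1, e1]

/-- the action of `φ` on the letters at position `j` -/
def loc {s : ℕ} (φ : strip s ≃g strip s) (j : ℤ) (a : Om) : Om := (φ (pt s (fun _ => a) j)).2 0

theorem map_pt {s : ℕ} (hs : 1 ≤ s) (φ : strip s ≃g strip s) (hφ : LevelPres φ)
    (ξ : ℤ → Om) (i : ℤ) : φ (pt s ξ i) = pt s (fun j => loc φ j (ξ j)) i := by
  refine Prod.ext (hφ _) (funext fun m => ?_)
  have h := coord_shift hs φ ξ m.val m.isLt i
  rw [show (⟨m.val, m.isLt⟩ : Fin (s + 1)) = m from rfl] at h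
  rw [h]
  exact coord_dep hs φ _ _ _ rfl

theorem loc_invol {s : ℕ} (hs : 1 ≤ s) (φ : strip s ≃g strip s) (hφ : LevelPres φ)
    (h2 : ∀ v, φ (φ v) = v) (j : ℤ) (a : Om) : loc φ j (loc φ j a) = a := by
  have h := h2 (pt s (fun _ => a) j)
  rw [map_pt hs φ hφ, map_pt hs φ hφ] at h
  have := congrArg (fun v : Vx s => v.2 0) h
  simpa [pt] using this

theorem loc_adj {s : ℕ} (hs : 1 ≤ s) (φ : strip s ≃g strip s) (hφ : LevelPres φ)
    (j : ℤ) (a b : Om) (h : petAdj a b) : petAdj (loc φ j a) (loc φ j b) := by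
  have h1 : Lv (pt s (fun _ => a) (j - s)) (pt s (fun t => if t = j then b else a) (j - s)) := by
    refine ⟨rfl, fun m => ?_, ?_⟩
    · simp only [pt, Fin.val_castSucc]
      rw [if_neg (by have := m.isLt; omega)]
    · simp only [pt, Fin.val_last]
      rw [if_pos (by omega)]
      exact h
  have h2 := (map_lv hs φ h1).2.2
  rw [map_pt hs φ hφ, map_pt hs φ hφ] at h2
  simp only [pt, Fin.val_last] at h2
  have e3 : j - (s : ℤ) + s = j := by ring
  simp only [e3, if_true] at h2
  exact h2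

theorem involution_fixes {s : ℕ} (hs : 1 ≤ s) (φ : strip s ≃g strip s) (hφ : LevelPres φ)
    (h2 : ∀ v, φ (φ v) = v) : ∃ v, φ v = v := by
  choose a ha using fun j : ℤ => pet_involution (loc φ j) (loc_invol hs φ hφ h2 j)
    (loc_adj hs φ hφ j)
  refine ⟨pt s a 0, ?_⟩
  rw [map_pt hs φ hφ]
  simp only [ha]

theorem many_orbits {s : ℕ} (hs : 1 ≤ s) (Γ : Subgroup (strip s ≃g strip s))
    (hfree : ∀ γ ∈ Γ, ∀ v : Vx s, γ v = v → γ = 1) (n : ℕ)
    (e : MulAction.orbitRel.Quotient Γ (Vx s) ≃ Fin n) : 2 ^ (s + 1) ≤ n := by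
  classical
  -- the level preserving subgroup
  let F : Subgroup (strip s ≃g strip s) :=
    { carrier := {γ | γ ∈ Γ ∧ ∀ v, (γ v).1 = v.1}
      mul_mem' := by
        rintro a b ⟨ha, ha'⟩ ⟨hb, hb'⟩
        refine ⟨Γ.mul_mem ha hb, fun v => ?_⟩
        rw [RelIso.mul_apply, ha', hb']
      one_mem' := ⟨Γ.one_mem, fun v => rfl⟩
      inv_mem' := by
        rintro a ⟨ha, ha'⟩
        refine ⟨Γ.inv_mem ha, fun v => ?_⟩
        have := ha' (a⁻¹ v)
        rw [← RelIso.mul_apply, mul_inv_cancel] at this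
        exact this.symm }
  let X := {v : Vx s // v.1 = 0}
  let _ : MulAction F X :=
    { smul := fun γ x => ⟨γ.1 x.1, by rw [γ.2.2]; exact x.2⟩
      one_smul := fun x => rfl
      mul_smul := fun a b x => rfl }
  have hsmul : ∀ (γ : F) (x : X), (γ • x).1 = γ.1 x.1 := fun _ _ => rfl
  have : Finite X := by
    have : Finite {v : Vx s | -0 ≤ v.1 ∧ v.1 ≤ 0} := level_finite s 0
    exact Finite.of_injective (fun x : X => (⟨x.1, by
      have := x.2; simp [this]⟩ : {v : Vx s | -0 ≤ v.1 ∧ v.1 ≤ 0}))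
      (fun a b h => Subtype.ext (congrArg (fun z => z.1) h))
  let x₀ : X := ⟨(0, fun _ => (0, false)), rfl⟩
  have hF : ∀ γ : F, ∀ x : X, γ • x = x → γ = 1 := by
    intro γ x h
    apply Subtype.ext
    exact hfree γ.1 γ.2.1 x.1 (congrArg Subtype.val h)
  have : Finite F := by
    refine Finite.of_injective (fun γ : F => γ • x₀) ?_
    intro a b h
    have h' : (b⁻¹ * a) • x₀ = x₀ := by
      rw [mul_smul]
      simp only at h
      rw [h, inv_smul_smul]
    have := hF _ _ h'
    rwa [inv_mul_eq_one, eq_comm] at this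
  have : Fintype F := Fintype.ofFinite F
  -- odd order
  have hodd : ¬ 2 ∣ Nat.card F := by
    intro h2
    rw [Nat.card_eq_fintype_card] at h2
    have : Fact (Nat.Prime 2) := ⟨Nat.prime_two⟩
    obtain ⟨γ, hγ⟩ := exists_prime_orderOf_dvd_card 2 h2
    have h3 : γ * γ = 1 := by
      have := pow_orderOf_eq_one γ
      rwa [hγ, pow_two] at this
    have h4 : ∀ v, γ.1 (γ.1 v) = v := by
      intro v
      have := congrArg (fun g : F => g.1 v) h3
      exact this
    obtain ⟨v, hv⟩ := involution_fixes hs γ.1 γ.2.2 h4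
    have h5 := hfree γ.1 γ.2.1 v hv
    have h6 : γ = 1 := Subtype.ext h5
    rw [h6, orderOf_one] at hγ
    omega
  -- orbit count
  let Q := Quotient (MulAction.orbitRel F X)
  have hcard : Nat.card X = Nat.card Q * Nat.card F := by
    rw [← Nat.card_prod]
    refine Nat.card_congr ((MulAction.selfEquivSigmaOrbitsQuotientStabilizer F X).trans ?_)
    refine (Equiv.sigmaCongrRight (fun ω => ?_)).trans (Equiv.sigmaEquivProd _ _)
    have hst : MulAction.stabilizer F (ω.out) = ⊥ := by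
      rw [Subgroup.eq_bot_iff_forall]
      intro γ hγ
      exact hF γ _ hγ
    rw [hst]
    exact (QuotientGroup.quotientBot (G := F)).toEquiv
  have hQ : Nat.card Q ≤ n := by
    have hfin : Finite (MulAction.orbitRel.Quotient Γ (Vx s)) := Finite.of_equiv _ e.symm
    have h1 : Nat.card (MulAction.orbitRel.Quotient Γ (Vx s)) = n := by
      rw [Nat.card_congr e, Nat.card_eq_fintype_card, Fintype.card_fin]
    rw [← h1]
    let f : Q → MulAction.orbitRel.Quotient Γ (Vx s) :=
      Quotient.lift (fun x : X => (Quotient.mk (MulAction.orbitRel Γ (Vx s)) x.1)) (by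
        intro a b hab
        obtain ⟨γ, hγ⟩ := (MulAction.orbitRel_apply.1 hab)
        apply Quotient.sound
        refine MulAction.orbitRel_apply.2 ⟨⟨γ.1, γ.2.1⟩, ?_⟩
        exact congrArg Subtype.val hγ)
    refine Nat.card_le_card_of_injective f ?_
    intro a b
    refine Quotient.inductionOn₂ a b ?_
    intro x y hxy
    have h2 := Quotient.exact hxy
    obtain ⟨γ, hγ⟩ := (MulAction.orbitRel_apply.1 h2)
    have h3 : γ.1 y.1 = x.1 := hγ
    apply Quotient.sound
    have h4 : ∀ v, (γ.1 v).1 = v.1 := by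
      intro v
      have h5 := level_shift hs γ.1 v y.1
      rw [h3, x.2, y.2] at h5
      omega
    refine MulAction.orbitRel_apply.2 ⟨⟨γ.1, γ.2, h4⟩, ?_⟩
    exact Subtype.ext h3
  have hX : Nat.card X = 10 ^ (s + 1) := by
    have e2 : X ≃ (Fin (s + 1) → Om) :=
      { toFun := fun x => x.1.2
        invFun := fun w => ⟨(0, w), rfl⟩
        left_inv := fun x => Subtype.ext (Prod.ext x.2.symm rfl)
        right_inv := fun w => rfl }
    rw [Nat.card_congr e2, Nat.card_eq_fintype_card]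
    simp
  rw [hX] at hcard
  have hdvd : Nat.card F ∣ 5 ^ (s + 1) := by
    have h1 : Nat.card F ∣ 2 ^ (s + 1) * 5 ^ (s + 1) := by
      rw [← mul_pow]
      exact ⟨Nat.card Q, by rw [mul_comm (Nat.card F)]; exact hcard⟩
    refine Nat.Coprime.dvd_of_dvd_mul_left ?_ h1
    apply Nat.Coprime.pow_right
    rw [Nat.coprime_comm]
    exact (Nat.Prime.coprime_iff_not_dvd Nat.prime_two).2 hodd
  have hle : Nat.card F ≤ 5 ^ (s + 1) := Nat.le_of_dvd (by positivity) hdvd
  have h10 : (10 : ℕ) ^ (s + 1) = 2 ^ (s + 1) * 5 ^ (s + 1) := by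
    rw [← mul_pow]
    norm_num
  have h11 : 2 ^ (s + 1) * 5 ^ (s + 1) ≤ Nat.card Q * 5 ^ (s + 1) := by
    rw [← h10, hcard]
    exact Nat.mul_le_mul_left _ hle
  exact (Nat.le_of_mul_le_mul_right h11 (by positivity)).trans hQ

/-- For every `N` there is a connected, vertex-transitive, 23-regular graph with exactly two
ends that is not `n`-Cayley for any `n ≤ N`. -/
theorem result : ∀ N : ℕ, ∃ (V : Type) (G : SimpleGraph V),
    G.Connected ∧ (∀ v, (G.neighborSet v).encard = (23 : ℕ)) ∧ VertexTransitive G ∧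
      HasExactlyTwoEnds G ∧ ∀ n ≤ N, ¬ IsNCayley G n := by
  intro N
  refine ⟨Vx (N + 1), strip (N + 1), strip_connected _, strip_regular _, strip_transitive _,
    strip_ends _, ?_⟩
  rintro n hn ⟨Γ, hfree, ⟨e⟩⟩
  have h := many_orbits (by omega) Γ hfree n e
  have h2 : N + 1 + 1 < 2 ^ (N + 1 + 1) := Nat.lt_two_pow_self
  omega

end Pool.H36.MV.Unbounded
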